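import Pool.Agent.Helper20.RG.St2

/-! Project RG (MP_cb927e_an), module PS: persistence. -/

set_option autoImplicit false

open MeasureTheory Set Filter Topology
open scoped ENNReal RealInnerProductSpace

namespace Pool.Agent.Helper89.RG

open Pool.Agent.Helper20.RG
open Pool.Agent.Helper68.LM (Pl BB Bd Av HL ft fm DQ)

theorem ps_om (u b : ℕ) : om u b (16 * u) = om u (b + 1) 0 := by
  unfold om; ring

theorem ps_core (u : ℕ) (hu : 1 ≤ u) (η : ℝ) (hη : 0 < η) (x : ℕ → ℝ)
    (h0 : η ≤ |x (om u 0 0)|)
    (hno : ∀ b ≤ 3 * u, (∀ b' < b, ∀ l ≤ 16 * u, η / 2 ≤ |x (om u b' l)|) →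
      ∀ l < 16 * u, |x (om u b l) - x (om u b (l + 1))| < η / (2 * Ms u)) :
    ∀ b ≤ 3 * u + 1, (∀ b' < b, ∀ l ≤ 16 * u, η / 2 ≤ |x (om u b' l)|) ∧
      η * (1 - 16 * u * b / (2 * Ms u)) ≤ |x (om u b 0)| := by
  have hu' : (1 : ℝ) ≤ u := by exact_mod_cast hu
  have hM : 0 < Ms u := by unfold Ms; positivity
  intro b
  induction b with
  | zero =>
    intro _
    refine ⟨fun b' hb' => absurd hb' (Nat.not_lt_zero _), ?_⟩
    simpa using h0
  | succ b ih =>
    intro hb
    obtain ⟨h1, h2⟩ := ih (by omega)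
    have hst := hno b (by omega) h1
    have hl : ∀ l ≤ 16 * u, η * (1 - (16 * u * b + l) / (2 * Ms u)) ≤ |x (om u b l)| := by
      intro l
      induction l with
      | zero =>
        intro _
        simpa using h2
      | succ l ihl =>
        intro hl
        have h3 := ihl (by omega)
        have h4 := hst l (by omega)
        have h5 : |x (om u b l)| - |x (om u b (l + 1))| ≤
            |x (om u b l) - x (om u b (l + 1))| := abs_sub_abs_le_abs_sub _ _
        have h6 : η * (1 - (16 * u * b + ((l + 1 : ℕ) : ℝ)) / (2 * Ms u)) =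
            η * (1 - (16 * u * b + l) / (2 * Ms u)) - η / (2 * Ms u) := by
          push_cast
          ring
        rw [h6]
        linarith
    refine ⟨?_, ?_⟩
    · intro b' hb' l hl'
      rcases Nat.lt_succ_iff_lt_or_eq.mp hb' with h | h
      · exact h1 b' h l hl'
      · subst h
        refine le_trans ?_ (hl l hl')
        have hb3 : (b' : ℝ) ≤ 3 * u := by exact_mod_cast (by omega : b' ≤ 3 * u)
        have hl3 : (l : ℝ) ≤ 16 * u := by exact_mod_cast hl'
        have h7 : (16 * u * b' + l : ℝ) ≤ Ms u := by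
          unfold Ms
          nlinarith
        have h8 : (16 * u * b' + l : ℝ) / (2 * Ms u) ≤ 1 / 2 := by
          rw [div_le_iff₀ (by positivity)]
          linarith
        nlinarith
    · rw [← ps_om]
      have := hl (16 * u) le_rfl
      refine le_trans (le_of_eq ?_) this
      push_cast
      ring

theorem hPS : StPS := by
  intro Zf u η k x hu hη
  have hsub : {j : ℕ | j < 2 ^ u ∧ η ≤ |Zf (om u 0 0) k j x|} ⊆
      ⋃ b ∈ Finset.range (3 * u + 2), Pe Zf u η b k x := by
    rintro j ⟨hj, hηj⟩
    by_contra hno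
    simp only [Set.mem_iUnion, Finset.mem_range, exists_prop, not_exists, not_and] at hno
    have hcore := ps_core u hu η hη (fun w => Zf w k j x) hηj (by
      intro b hb hall l hl
      by_contra hc
      rw [not_lt] at hc
      exact hno b (by omega) ⟨hj, hall, fun _ => ⟨l, hl, hc⟩⟩)
    exact hno (3 * u + 1) (by omega) ⟨hj, (hcore (3 * u + 1) le_rfl).1, fun h => by omega⟩
  have hfin : ∀ b ∈ Finset.range (3 * u + 2), (Pe Zf u η b k x).Finite := fun b _ =>
    (Set.finite_lt_nat (2 ^ u)).subset fun j hj => hj.1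
  have hfin' : (⋃ b ∈ Finset.range (3 * u + 2), Pe Zf u η b k x).Finite :=
    Set.Finite.biUnion (Finset.finite_toSet _) hfin
  refine (Set.ncard_le_ncard hsub hfin').trans ?_
  exact Finset.set_ncard_biUnion_le _ _

end Pool.Agent.Helper89.RG
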