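import Mathlib
import Pool.Agent.Helper20.RG.St1

/-!
# Project RG, module PT: coordinates of the plane
-/

set_option autoImplicit false

open MeasureTheory Set Filter Topology
open scoped ENNReal RealInnerProductSpace

namespace Pool.Agent.Helper89.RG

open Pool.Agent.Helper20.RG
open Pool.Agent.Helper68.LM (Pl BB Bd Av HL ft fm DQ)

theorem pt_coord (a b : ℝ) : (pt a b) 0 = a ∧ (pt a b) 1 = b := by
  constructor <;> simp [pt]

theorem pt_eta (x : Pl) : pt (x 0) (x 1) = x := by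
  ext i
  fin_cases i
  · exact (pt_coord _ _).1
  · exact (pt_coord _ _).2

theorem norm_sq_eq (x : Pl) : ‖x‖ ^ 2 = x 0 ^ 2 + x 1 ^ 2 := by
  rw [EuclideanSpace.norm_sq_eq, Fin.sum_univ_two, Real.norm_eq_abs, Real.norm_eq_abs, sq_abs,
    sq_abs]

theorem norm_facts (x : Pl) :
    |x 0| ≤ ‖x‖ ∧ |x 1| ≤ ‖x‖ ∧ ‖x‖ ≤ |x 0| + |x 1| ∧ ‖x‖ ^ 2 = x 0 ^ 2 + x 1 ^ 2 := by
  have h := norm_sq_eq x
  have h0 : (0 : ℝ) ≤ ‖x‖ := norm_nonneg x
  refine ⟨?_, ?_, ?_, h⟩
  · apply abs_le_of_sq_le_sq _ h0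
    nlinarith [sq_nonneg (x 1)]
  · apply abs_le_of_sq_le_sq _ h0
    nlinarith [sq_nonneg (x 0)]
  · have h1 : (0 : ℝ) ≤ |x 0| + |x 1| := by positivity
    have h2 : ‖x‖ ^ 2 ≤ (|x 0| + |x 1|) ^ 2 := by
      rw [h]
      nlinarith [sq_abs (x 0), sq_abs (x 1), mul_nonneg (abs_nonneg (x 0)) (abs_nonneg (x 1))]
    exact (sq_le_sq₀ h0 h1).mp h2

theorem inner_eq (x y : Pl) : ⟪x, y⟫ = x 0 * y 0 + x 1 * y 1 := by
  rw [PiLp.inner_apply, Fin.sum_univ_two]
  simp [mul_comm]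

theorem pt_cont : Continuous fun q : ℝ × ℝ => pt q.1 q.2 := by
  have h : (fun q : ℝ × ℝ => pt q.1 q.2) = fun q : ℝ × ℝ => WithLp.toLp 2 ![q.1, q.2] := rfl
  rw [h]
  apply (PiLp.continuous_toLp 2 _).comp
  apply continuous_pi
  intro i
  fin_cases i
  · exact continuous_fst
  · exact continuous_snd

/-- the measurable equivalence `ℝ × ℝ ≃ Pl` -/
noncomputable def eq2 : ℝ × ℝ ≃ᵐ Pl :=
  (MeasurableEquiv.finTwoArrow (α := ℝ)).symm.trans (MeasurableEquiv.toLp 2 (Fin 2 → ℝ))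

theorem eq2_apply (q : ℝ × ℝ) : eq2 q = pt q.1 q.2 := by
  ext i
  fin_cases i
  · simp [eq2, pt, MeasurableEquiv.finTwoArrow]
  · simp [eq2, pt, MeasurableEquiv.finTwoArrow]

theorem eq2_mp : MeasurePreserving eq2 (volume : Measure (ℝ × ℝ)) (volume : Measure Pl) := by
  have h1 : MeasurePreserving (MeasurableEquiv.finTwoArrow (α := ℝ)).symm
      (volume : Measure (ℝ × ℝ)) (volume : Measure (Fin 2 → ℝ)) :=
    (volume_preserving_finTwoArrow ℝ).symm _
  have h2 : MeasurePreserving (MeasurableEquiv.toLp 2 (Fin 2 → ℝ))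
      (volume : Measure (Fin 2 → ℝ)) (volume : Measure Pl) :=
    EuclideanSpace.volume_preserving_symm_measurableEquiv_toLp (Fin 2) |>.symm _
  exact h2.comp h1

theorem lint (f : Pl → ℝ≥0∞) (hf : Measurable f) :
    ∫⁻ x, f x = ∫⁻ a : ℝ, ∫⁻ b : ℝ, f (pt a b) := by
  rw [← eq2_mp.lintegral_comp hf]
  have hm : Measurable fun q : ℝ × ℝ => f (eq2 q) := hf.comp eq2.measurable
  rw [Measure.volume_eq_prod, lintegral_prod _ hm.aemeasurable]
  simp only [eq2_apply]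

theorem inte (f : Pl → ℝ) (hf : Integrable f) :
    ∫ x, f x = ∫ a : ℝ, ∫ b : ℝ, f (pt a b) := by
  rw [← eq2_mp.integral_comp' f]
  have hi : Integrable (fun q : ℝ × ℝ => f (eq2 q)) (volume : Measure (ℝ × ℝ)) :=
    (eq2_mp.integrable_comp_emb eq2.measurableEmbedding).mpr hf
  rw [Measure.volume_eq_prod] at hi ⊢
  rw [integral_prod _ hi]
  simp only [eq2_apply]

theorem sq_meas (x : Pl) (r : ℝ) : MeasurableSet (Sq x r) := by
  have h0 : Continuous fun y : Pl => y 0 := by fun_prop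
  have h1 : Continuous fun y : Pl => y 1 := by fun_prop
  have hc : IsClosed (Sq x r) := by
    have e : Sq x r = {y : Pl | |y 0 - x 0| ≤ r} ∩ {y : Pl | |y 1 - x 1| ≤ r} := rfl
    rw [e]
    apply IsClosed.inter
    · exact isClosed_le ((h0.sub continuous_const).abs) continuous_const
    · exact isClosed_le ((h1.sub continuous_const).abs) continuous_const
  exact hc.measurableSet

theorem sq_vol (x : Pl) (r : ℝ) (hr : 0 ≤ r) : volume (Sq x r) = ENNReal.ofReal (4 * r ^ 2) := by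
  rw [← eq2_mp.measure_preimage (sq_meas x r).nullMeasurableSet]
  have h : eq2 ⁻¹' (Sq x r) = Icc (x 0 - r) (x 0 + r) ×ˢ Icc (x 1 - r) (x 1 + r) := by
    ext q
    simp only [mem_preimage, eq2_apply, Sq, mem_ofPred_eq, (pt_coord q.1 q.2).1,
      (pt_coord q.1 q.2).2, mem_prod, mem_Icc, abs_le]
    constructor
    · rintro ⟨⟨h1, h2⟩, h3, h4⟩
      exact ⟨⟨by linarith, by linarith⟩, by linarith, by linarith⟩
    · rintro ⟨⟨h1, h2⟩, h3, h4⟩
      exact ⟨⟨by linarith, by linarith⟩, by linarith, by linarith⟩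
  rw [h, Measure.volume_eq_prod, Measure.prod_prod, Real.volume_Icc, Real.volume_Icc,
    ← ENNReal.ofReal_mul (by linarith)]
  congr 1
  ring

theorem hPT : StPT :=
  ⟨pt_coord, pt_eta, norm_facts, inner_eq, pt_cont, lint, inte,
    fun x r hr => ⟨sq_meas x r, sq_vol x r hr⟩⟩

end Pool.Agent.Helper89.RG
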